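import Mathlib
import Pool.Agent.H53M.Main

/-!
# The complex Monge-Ampere equation `(dd^c u)² = λ ⊗ δ₀` has no solution in `𝓕(𝔻 × 𝔻)`

Let `Ω = 𝔻 × 𝔻 ⊂ ℂ²` be the bidisc, `λ` Lebesgue measure on the disc (first coordinate) and `δ₀` the Dirac
mass at `0` (second coordinate).  No nonzero measure `μ` with `μ ≤ c (λ ⊗ δ₀)` for some constant `c` is the
Monge-Ampere measure of a function in the Cegrell class `𝓕(Ω)`; in particular `λ ⊗ δ₀` is not, nor is any
positive multiple of it (so the normalisation of `dd^c` does not matter).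

All notions entering the statement are defined in this file, over Mathlib alone.
-/

set_option autoImplicit false

open MeasureTheory Metric Set Filter Topology
open scoped ContDiff ComplexOrder

namespace Pool.Agent.Results.MP_4eb3f9_an.NoSolution

/-- `ℂⁿ` with its Euclidean norm; `volume` on it is Lebesgue measure on `ℝ²ⁿ`. -/
abbrev Cn (n : ℕ) : Type := EuclideanSpace ℂ (Fin n)

/-- The `j`-th unit vector of `ℂⁿ`. -/
noncomputable def bas {n : ℕ} (j : Fin n) : Cn n := EuclideanSpace.single j (1 : ℂ)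

/-- The Wirtinger derivative `∂f/∂z_j = (∂f/∂x_j - i ∂f/∂y_j) / 2`. -/
noncomputable def wd {n : ℕ} (j : Fin n) (f : Cn n → ℂ) (z : Cn n) : ℂ :=
  (fderiv ℝ f z (bas j) - Complex.I * fderiv ℝ f z (Complex.I • bas j)) / 2

/-- The Wirtinger derivative `∂f/∂z̄_k = (∂f/∂x_k + i ∂f/∂y_k) / 2`. -/
noncomputable def wdb {n : ℕ} (k : Fin n) (f : Cn n → ℂ) (z : Cn n) : ℂ :=
  (fderiv ℝ f z (bas k) + Complex.I * fderiv ℝ f z (Complex.I • bas k)) / 2

/-- The complex Hessian `(∂²u/∂z_j∂z̄_k)` of a real function. -/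
noncomputable def hess {n : ℕ} (u : Cn n → ℝ) (z : Cn n) : Matrix (Fin n) (Fin n) ℂ :=
  Matrix.of fun j k => wd j (wdb k fun w => (u w : ℂ)) z

/-- Plurisubharmonic functions on an open set `Ω` of `ℂⁿ`, with values in `[-∞, ∞)`: upper
semicontinuous, and for every closed complex disc `{a + ζ b : |ζ| ≤ 1} ⊆ Ω` the value at the centre
`a` is at most the mean over the boundary circle. The mean of an upper semicontinuous function is
the infimum of the means of its continuous majorants, which is how it is expressed here. -/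
def PSH {n : ℕ} (Ω : Set (Cn n)) (u : Cn n → EReal) : Prop :=
  UpperSemicontinuousOn u Ω ∧ (∀ z ∈ Ω, u z < ⊤) ∧
  ∀ a b : Cn n, (∀ ζ : ℂ, ‖ζ‖ ≤ 1 → a + ζ • b ∈ Ω) →
    ∀ φ : ℂ → ℝ, Continuous φ →
      (∀ ζ : ℂ, ‖ζ‖ = 1 → u (a + ζ • b) ≤ ((φ ζ : ℝ) : EReal)) →
        u a ≤ ((Real.circleAverage φ 0 1 : ℝ) : EReal)

/-- The density of `(dd^c v)ⁿ` with respect to Lebesgue measure for a `C²` function `v`, where
`dd^c = (i/π)∂∂̄`: it is `n! (2/π)ⁿ det(∂²v/∂z_j∂z̄_k)`. -/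
noncomputable def maDensity {n : ℕ} (v : Cn n → ℝ) (z : Cn n) : ℝ :=
  (n.factorial : ℝ) * (2 / Real.pi) ^ n * (hess v z).det.re

/-- `μ` is, on `Ω`, the Monge-Ampere measure `(dd^c u)ⁿ` of the locally bounded plurisubharmonic
function `u` in the sense of Bedford and Taylor: it is finite on compact subsets of `Ω`, and on every
open `U` relatively compact in `Ω` the function `u` is the pointwise limit of a decreasing sequence of
smooth plurisubharmonic functions `v_k` whose Monge-Ampere measures `maDensity (v_k) dVol` converge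
weakly to `μ` on `U`. -/
def IsMongeAmpere {n : ℕ} (Ω : Set (Cn n)) (u : Cn n → ℝ) (μ : Measure (Cn n)) : Prop :=
  (∀ K : Set (Cn n), IsCompact K → K ⊆ Ω → μ K < ⊤) ∧
  ∀ U : Set (Cn n), IsOpen U → IsCompact (closure U) → closure U ⊆ Ω →
    ∃ v : ℕ → Cn n → ℝ,
      (∀ k, ContDiffOn ℝ ∞ (v k) U) ∧
      (∀ k, ∀ z ∈ U, (hess (v k) z).PosSemidef) ∧
      (∀ z ∈ U, Antitone fun k => v k z) ∧
      (∀ z ∈ U, Tendsto (fun k => v k z) atTop (𝓝 (u z))) ∧
      ∀ χ : Cn n → ℝ, Continuous χ → HasCompactSupport χ → tsupport χ ⊆ U →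
        Tendsto (fun k => ∫ z, χ z * maDensity (v k) z) atTop (𝓝 (∫ z, χ z ∂μ))

/-- `u ∈ 𝓔₀(Ω)` with `(dd^c u)ⁿ = ν`: `u` is a bounded plurisubharmonic function, `u ≤ 0`,
`u(z) → 0` as `z → ∂Ω`, and the total mass of `(dd^c u)ⁿ` is finite. -/
def IsE0 {n : ℕ} (Ω : Set (Cn n)) (u : Cn n → ℝ) (ν : Measure (Cn n)) : Prop :=
  PSH Ω (fun z => ((u z : ℝ) : EReal)) ∧
  (∃ M : ℝ, ∀ z ∈ Ω, -M ≤ u z) ∧ (∀ z ∈ Ω, u z ≤ 0) ∧
  (∀ w ∈ frontier Ω, Tendsto u (𝓝[Ω] w) (𝓝 0)) ∧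
  IsMongeAmpere Ω u ν ∧ ν Ω < ⊤

/-- `φ` belongs to the Cegrell class `𝓕(Ω)` with `(dd^c φ)ⁿ = μ`: `φ` is plurisubharmonic, and there
is a sequence `u_j ∈ 𝓔₀(Ω)` decreasing pointwise to `φ`, with total masses bounded, such that
`(dd^c u_j)ⁿ` converges weakly to `μ` on `Ω`. -/
def IsCegrellF {n : ℕ} (Ω : Set (Cn n)) (φ : Cn n → EReal) (μ : Measure (Cn n)) : Prop :=
  PSH Ω φ ∧ μ Ω < ⊤ ∧
  ∃ (u : ℕ → Cn n → ℝ) (ν : ℕ → Measure (Cn n)),
    (∀ j, IsE0 Ω (u j) (ν j)) ∧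
    (∀ z ∈ Ω, Antitone fun j => u j z) ∧
    (∀ z ∈ Ω, Tendsto (fun j => ((u j z : ℝ) : EReal)) atTop (𝓝 (φ z))) ∧
    (∃ M : ℝ, ∀ j, ν j Ω ≤ ENNReal.ofReal M) ∧
    ∀ χ : Cn n → ℝ, Continuous χ → HasCompactSupport χ → tsupport χ ⊆ Ω →
      Tendsto (fun j => ∫ z, χ z ∂(ν j)) atTop (𝓝 (∫ z, χ z ∂μ))

/-- The bidisc `𝔻 × 𝔻`. -/
def bidisc : Set (Cn 2) := {z | ‖z 0‖ < 1 ∧ ‖z 1‖ < 1}

/-- `λ ⊗ δ₀`: the image of Lebesgue measure on the unit disc under `x ↦ (x, 0)`. -/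
noncomputable def lebDirac : Measure (Cn 2) :=
  Measure.map (fun x : ℂ => (WithLp.toLp 2 ![x, 0] : Cn 2)) (volume.restrict (ball (0 : ℂ) 1))

/-- `λ ⊗ δ₀` is not zero, so `result` applies to all its positive multiples. -/
theorem lebDirac_ne_zero : lebDirac ≠ 0 := by
  have hc : Continuous fun x : ℂ => (WithLp.toLp 2 ![x, 0] : Cn 2) := by
    refine (PiLp.continuous_toLp 2 _).comp (continuous_pi fun i => ?_)
    fin_cases i
    · exact continuous_id
    · exact continuous_const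
  intro h
  have h1 : lebDirac univ = 0 := by rw [h]; simp
  rw [lebDirac, Measure.map_apply hc.measurable MeasurableSet.univ, preimage_univ,
    Measure.restrict_apply MeasurableSet.univ, univ_inter] at h1
  exact (measure_ball_pos volume (0 : ℂ) one_pos).ne' h1

/-- **Q1, answered in the negative.**  If `μ` is a nonzero measure with `μ ≤ c (λ ⊗ δ₀)`, `c > 0` (for instance
`μ = c (λ ⊗ δ₀)`), then no function `u` of the Cegrell class `𝓕(𝔻 × 𝔻)` satisfies `(dd^c u)² = μ`. -/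
theorem result (c : ℝ) (hc : 0 < c) (μ : Measure (Cn 2)) (hμ : μ ≤ ENNReal.ofReal c • lebDirac) (h0 : μ ≠ 0) :
    ¬ ∃ u : Cn 2 → EReal, IsCegrellF bidisc u μ := by
  rintro ⟨u, hu⟩
  exact Pool.Agent.H53M.main_final c hc μ hμ h0 u hu

/-- The special case `μ = c (λ ⊗ δ₀)` of `result`. -/
theorem result_multiples (c : ℝ) (hc : 0 < c) :
    ¬ ∃ u : Cn 2 → EReal, IsCegrellF bidisc u (ENNReal.ofReal c • lebDirac) := by
  refine result c hc _ le_rfl fun h => lebDirac_ne_zero ?_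
  have h2 : ENNReal.ofReal c ≠ 0 := by simpa using hc
  have h3 : (ENNReal.ofReal c • lebDirac) univ = 0 := by rw [h]; simp
  rw [Measure.smul_apply, smul_eq_mul, mul_eq_zero] at h3
  exact Measure.measure_univ_eq_zero.1 (h3.resolve_left h2)

end Pool.Agent.Results.MP_4eb3f9_an.NoSolution
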